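import Pool.Agent.W34.GB.Main

set_option autoImplicit false

namespace Pool.Agent.Results.MP_e47f08_nt.CatalanAlternative

/-- Let `ζ(3) = ∑ 1/(j+1)^3`, `G = ∑ (-1)^j/(2j+1)^2` (Catalan's constant), and let `ε` be `1` or `-1`.
Either `ζ(3)/π^3` is irrational, or the number `X = 8 G - π^5/(18 ζ(3)) + ε (2/3) π^2` is irrational and
even satisfies `|X - a/q| > exp (-C log q log (1 + log q))` for some `C > 0` and all integers `q ≥ 2`, `a`. -/
theorem result : ∀ ε : ℝ, (ε = 1 ∨ ε = -1) →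
    Irrational ((∑' j : ℕ, 1 / ((j : ℝ) + 1) ^ 3) / Real.pi ^ 3) ∨
    (Irrational (8 * (∑' j : ℕ, (-1 : ℝ) ^ j / (2 * (j : ℝ) + 1) ^ 2)
        - Real.pi ^ 5 / (18 * (∑' j : ℕ, 1 / ((j : ℝ) + 1) ^ 3)) + ε * (2 / 3 * Real.pi ^ 2)) ∧
      ∃ C : ℝ, 0 < C ∧ ∀ q : ℕ, 2 ≤ q → ∀ a : ℤ,
        Real.exp (-(C * Real.log q * Real.log (1 + Real.log q))) <
          |8 * (∑' j : ℕ, (-1 : ℝ) ^ j / (2 * (j : ℝ) + 1) ^ 2)
            - Real.pi ^ 5 / (18 * (∑' j : ℕ, 1 / ((j : ℝ) + 1) ^ 3)) + ε * (2 / 3 * Real.pi ^ 2)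
            - (a : ℝ) / (q : ℝ)|) := by
  intro ε hε
  have key : ∀ r : ℚ, _ := fun r => Pool.Agent.W34.GB.final_of Pool.Agent.W34.GB.zM Pool.Agent.W34.GB.zOne r
  unfold Pool.Agent.W34.GB.GC Pool.Agent.W34.GB.Z3 at key
  have hpi : (0 : ℝ) < Real.pi := Real.pi_pos
  have hsum : Summable (fun j : ℕ => 1 / ((j : ℝ) + 1) ^ 3) := by
    have h := (Real.summable_one_div_nat_pow (p := 3)).mpr (by norm_num)
    have h2 := (summable_nat_add_iff 1).mpr h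
    refine h2.congr ?_
    intro j
    push_cast
    rfl
  have hZ : 0 < ∑' j : ℕ, 1 / ((j : ℝ) + 1) ^ 3 :=
    hsum.tsum_pos (fun j => by positivity) 0 (by norm_num)
  generalize (∑' j : ℕ, 1 / ((j : ℝ) + 1) ^ 3) = Z at key hZ ⊢
  generalize (∑' j : ℕ, (-1 : ℝ) ^ j / (2 * (j : ℝ) + 1) ^ 2) = G at key ⊢
  by_cases hI : Irrational (Z / Real.pi ^ 3)
  · exact Or.inl hI
  right
  obtain ⟨s, hs⟩ : ∃ s : ℚ, (s : ℝ) = Z / Real.pi ^ 3 := by
    unfold Irrational at hI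
    push Not at hI
    exact hI
  have hspos : (0 : ℝ) < s := by rw [hs]; positivity
  have hZs : Z = s * Real.pi ^ 3 := by rw [hs]; field_simp
  have hs0 : (s : ℝ) ≠ 0 := hspos.ne'
  -- the common number
  have hX : ∀ c : ℝ, Real.pi ^ 5 / (18 * Z) + c * (2 / 3 * Real.pi ^ 2) =
      ((1 / (s : ℝ) + 12 * c) / 18) * Real.pi ^ 2 := by
    intro c
    rw [hZs]
    field_simp
    ring
  have fin : ∀ Y : ℝ, (∃ C : ℝ, 0 < C ∧ ∀ q : ℕ, 2 ≤ q → ∀ a b : ℤ,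
        Real.exp (-(C * Real.log q * Real.log (1 + Real.log q))) <
          max |Y - (a : ℝ) / (q : ℝ)| |(0 : ℝ) - (b : ℝ) / (q : ℝ)|) →
      Irrational Y ∧ ∃ C : ℝ, 0 < C ∧ ∀ q : ℕ, 2 ≤ q → ∀ a : ℤ,
        Real.exp (-(C * Real.log q * Real.log (1 + Real.log q))) < |Y - (a : ℝ) / (q : ℝ)| := by
    intro Y hY
    have h2 : ∃ C : ℝ, 0 < C ∧ ∀ q : ℕ, 2 ≤ q → ∀ a : ℤ,
        Real.exp (-(C * Real.log q * Real.log (1 + Real.log q))) < |Y - (a : ℝ) / (q : ℝ)| := by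
      obtain ⟨C, hC, h⟩ := hY
      refine ⟨C, hC, fun q hq a => ?_⟩
      have h1 := h q hq a 0
      simp only [Int.cast_zero, zero_div, sub_zero, abs_zero] at h1
      rcases lt_max_iff.mp h1 with h3 | h3
      · exact h3
      · exact absurd h3 (not_lt.mpr (Real.exp_pos _).le)
    refine ⟨?_, h2⟩
    obtain ⟨C, hC, h⟩ := h2
    rintro ⟨y, hy⟩
    have hd : (y.den : ℝ) ≠ 0 := by exact_mod_cast y.den_ne_zero
    have h1 := h (2 * y.den) (by have := y.den_pos; omega) (2 * y.num)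
    have h3 : Y - ((2 * y.num : ℤ) : ℝ) / ((2 * y.den : ℕ) : ℝ) = 0 := by
      rw [← hy]
      push_cast
      have h4 : (y : ℝ) = (y.num : ℝ) / (y.den : ℝ) := by exact_mod_cast (Rat.num_div_den y).symm
      rw [h4]
      field_simp
      ring
    rw [h3, abs_zero] at h1
    exact absurd h1 (not_lt.mpr (Real.exp_pos _).le)
  rcases hε with rfl | rfl
  · -- the mirrored pair, `12 + 18 r = 1/s`
    obtain ⟨-, k2⟩ := key ((1 / s - 12) / 18)
    have e1 : Real.pi ^ 3 - (12 + 18 * (((1 / s - 12) / 18 : ℚ) : ℝ)) * Z = 0 := by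
      rw [hZs]; push_cast; field_simp; ring
    have e2 : 8 * G - (((1 / s - 12) / 18 : ℚ) : ℝ) * Real.pi ^ 2 =
        8 * G - Real.pi ^ 5 / (18 * Z) + 1 * (2 / 3 * Real.pi ^ 2) := by
      have := hX (-1)
      push_cast
      linarith
    rw [e1, e2] at k2
    exact fin _ k2
  · obtain ⟨k1, -⟩ := key (-(1 / s + 12) / 18)
    have e1 : Real.pi ^ 3 + (12 + 18 * ((-(1 / s + 12) / 18 : ℚ) : ℝ)) * Z = 0 := by
      rw [hZs]; push_cast; field_simp; ring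
    have e2 : 8 * G + ((-(1 / s + 12) / 18 : ℚ) : ℝ) * Real.pi ^ 2 =
        8 * G - Real.pi ^ 5 / (18 * Z) + -1 * (2 / 3 * Real.pi ^ 2) := by
      have := hX 1
      push_cast
      linarith
    rw [e1, e2] at k1
    exact fin _ k1

end Pool.Agent.Results.MP_e47f08_nt.CatalanAlternative
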